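import Pool.Agent.P.MP_8be758_nt.Wt
import Pool.Agent.P.MP_e94e4b_nt.Main

/-! The counting statement at every level. -/

namespace Pool.Agent.P.MP_8be758_nt

open Finset Real Pool.Agent.P.MP_e94e4b_nt

/-- all levels up to `2 ^ (i / 4)` are done -/
def Done2 (i : ℕ) : Prop := ∀ X : ℕ, 12 ≤ X → log X < i * (log 2 / 4) → Cnt X

theorem Done2_14 : Done2 14 := fun N h1 h2 => by
  have : (12 : ℝ) ≤ N := by exact_mod_cast h1
  have h3 : log (2 ^ 14) ≤ log (N ^ 4) := log_le_log (by norm_num)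
    (le_trans (by norm_num) (pow_le_pow_left₀ (by norm_num) this 4))
  rw [log_pow, log_pow] at h3
  push_cast at *
  linarith

/-- the checks2 at one sieving level -/
noncomputable def cks2 (CT z u l W low i0 n : ℕ) : Bool := frc (Nat.log2 (z ^ 4)) fun jz =>
  allTo (fun k => frc (i0 + k) fun i => cond (Nat.blt i 400)
    (chk2 (gt u) (gt l i) W (fun j => Nat.sub (gt CT j) low) jz i (5 * i / 6)) false) n

theorem cks2_spec {CT z u l t W low C i0 n : ℕ} (hCT : ∀ j < 440, gt CT j = cumT j) (h5 : 5 ≤ z)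
    (hz : z ≤ 1024) (h : DI z u l t W low C) (h0 : Done2 i0)
    (h1 : cks2 CT z u l W low i0 n = true) : Done2 (i0 + n) := by
  replace h1 := frc_true h1
  have h2 := allTo_spec h1
  clear h1
  induction n with
  | zero => exact h0
  | succ n ih =>
    intro N hN h3
    rcases lt_or_ge (log N) ((i0 + n : ℕ) * (log 2 / 4)) with h4 | h4
    · exact ih (fun i hi => h2 i (by omega)) N hN h4
    have h6 := frc_true (h2 n (by omega))
    obtain ⟨h6, h7⟩ := cond_true' h6
    rw [Nat.blt_eq] at h6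
    have l2 := log_two_gt_d9
    have z0 : (0 : ℝ) < z := by exact_mod_cast (by omega : 0 < z)
    refine chk2_spec (z := z) (a0 := 0) (lam := log 2 / 4) h7 (by omega) ⟨by linarith, h5, h4,
      by exact_mod_cast h3, ?_, ?_,
      h.hl _ (by omega) _ (by exact_mod_cast (by omega : 0 < N)) (by linarith), Nat.zero_le _,
      Nat.zero_le _, fun a _ c X hX c' => h.hu a (by omega) X hX (by linarith),
      fun a _ x hx c => ?_, fun j c1 c2 s hs => ?_⟩
    · have : log (2 ^ (z ^ 4).log2) ≤ log (z ^ 4) := log_le_log (by positivity)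
        (by exact_mod_cast Nat.log2_self_le (by positivity))
      rw [log_pow, log_pow] at this
      push_cast at this
      linarith
    · have : log (z ^ 4) < log (2 ^ ((z ^ 4).log2 + 1)) := log_lt_log (by positivity)
        (by exact_mod_cast Nat.lt_log2_self)
      rw [log_pow, log_pow] at this
      push_cast at this
      linarith
    · rw [mul_assoc]
      exact h.hV.trans (mul_le_mul_of_nonneg_left (pw_spec hx (by linarith)) (V_pos z).le)
    · rw [hCT j (by omega)]
      exact cum_mid h5 hz h.hlow s hs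

/-- the main loop -/
noncomputable def run2 (O O' CT : ℕ) (k : ℕ → ℕ → ℕ → ℕ → ℕ → ℕ → ℕ → Bool) (f : ℕ) :
    ℕ → ℕ → ℕ → ℕ → ℕ → ℕ → ℕ → ℕ → ℕ → Bool :=
  Nat.rec (fun _ i0 u l t W low C _ => k i0 u l t W low C)
    (fun _ ih n i0 u l t W low C r => frc (Nat.succ n) fun n' => cond (isP n)
      (frc (8 * Nat.log2 (n ^ 4) - i0) fun m => frc (i0 + m) fun i1 =>
        cond (cks2 CT n u l W low i0 m) (stp O O' n u l t W low C r (ih n' i1)) false)
      (ih n' i0 u l t W low C r)) f

theorem run2_spec {O O' CT : ℕ} (hO : Ones O 520) (hO' : Ones O' 720) (hCT : ∀ j < 440, gt CT j = cumT j)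
    (k : ℕ → ℕ → ℕ → ℕ → ℕ → ℕ → ℕ → Bool) (f : ℕ) : ∀ n i0 u l t W low C r, 5 ≤ n →
    n + f = 1024 → DI n u l t W low C → Done2 i0 → run2 O O' CT k f n i0 u l t W low C r = true →
    ∃ i0 u l t W low C, DI 1024 u l t W low C ∧ Done2 i0 ∧ k i0 u l t W low C = true := by
  induction f with
  | zero =>
    intro n i0 u l t W low C r _ h1 h2 h3 h4
    obtain rfl : n = 1024 := h1
    exact ⟨_, _, _, _, _, _, _, h2, h3, h4⟩
  | succ f ih =>
    intro n i0 u l t W low C r h0 h1 h2 h3 h4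
    replace h4 := frc_true h4
    have h5 := isP_iff (n := n) (by omega)
    cases h6 : isP n <;> rw [h6] at h4 h5
    · exact ih _ _ _ _ _ _ _ _ _ (Nat.le_succ_of_le h0) (by omega)
        (h2.skip fun hp => by simpa using h5.2 ⟨hp, h0⟩) h3 h4
    · rw [cond_true] at h4
      iterate 2 replace h4 := frc_true h4
      obtain ⟨h7, h8⟩ := cond_true' h4
      obtain ⟨u', l', t', W', low', C', r', h9, h10⟩ := stp_spec hO hO' (h5.1 rfl).1 h0 h2 h8
      exact ih _ _ _ _ _ _ _ _ _ (Nat.le_succ_of_le h0) (by omega) h9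
        (cks2_spec hCT h0 (by omega) h2 h3 h7) h10

/-- the whole computation below `1024` -/
noncomputable def runAll2 (k : ℕ → ℕ → ℕ → ℕ → ℕ → ℕ → Bool) : Bool :=
  bld cumT (fun CT => ini fun O O' u t => run2 O O' CT (fun i0 u l t W low C =>
    cond (cks2 CT 1024 u l W low i0 (400 - i0)) (k CT u l t W C) false)
    1019 5 14 u u t SC 0 4 2) 440 0

theorem Done2.mono {i j : ℕ} (h : Done2 i) (hj : j ≤ i) : Done2 j := fun N h1 h2 =>
  h N h1 (h2.trans_le (mul_le_mul_of_nonneg_right (by exact_mod_cast hj)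
    (by linarith [log_two_gt_d9])))

theorem runAll2_spec {k : ℕ → ℕ → ℕ → ℕ → ℕ → ℕ → Bool} (h : runAll2 k = true) :
    Done2 400 ∧ ∃ CT u l t W low C, (∀ j < 440, gt CT j = cumT j) ∧ DI 1024 u l t W low C ∧
      k CT u l t W C = true := by
  obtain ⟨CT, h, -, hCT, -⟩ := bld_spec h
  obtain ⟨O, O', u, t, o1, o2, h1, h⟩ := ini_spec h
  obtain ⟨i0, u, l, t, W, low, C, h2, h3, h⟩ :=
    run2_spec o1 o2 hCT _ _ _ _ _ _ _ _ _ _ _ le_rfl rfl h1 Done2_14 h
  obtain ⟨h4, h5⟩ := cond_true' h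
  exact ⟨(cks2_spec hCT (by norm_num) le_rfl h2 h3 h4).mono (by omega), CT, u, l, t, W, low, C,
    hCT, h2, h5⟩

/-- the final check -/
noncomputable def finC2 (U L T : ℕ → ℕ) (CT u l t W C : ℕ) : Bool :=
  frc (U 480 * 113 / 100) fun c => frc ((T 640 - gt t 719) * 86 / 100) fun c' =>
  mkT (fM 40 L (gt u)) (fun MU => mkT (fM 80 U (gt l)) (fun ML =>
    mkT (fN T fun j => mn SC (gt t j)) (fun NU =>
      allTo (fun i => Nat.ble (U (i + 1)) (U i) && Nat.ble (L (i + 1)) (L i)) 480 &&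
      allTo (fun i => Nat.ble (T (i + 1)) (T i)) 640 &&
      allTo (fun i => Nat.ble SC (L i)) 80 && Nat.ble SC (T 0) &&
      ckU 40 L U (gt u) (gt MU) C (fun j => Nat.blt (T j) SC &&
        Nat.ble (8267 * SC * SC) (8192 * (SC + lo U 480 0 26 27 j) * (SC - T j))) &&
      ckU 80 U L (gt l) (gt ML) C (fun j => Nat.ble SC (lo L 480 0 26 27 j)) &&
      ckN T (fun j => mn SC (gt t j)) (gt NU) &&
      chk2 U (L 400) (W * 16 / 17) (fun j => gt CT j - gt CT 39) 40 400 302)
      720 c' c') 520 c c) 520 c c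

theorem finC2_spec {U L T : ℕ → ℕ} {CT u l t W low C : ℕ} (h : finC2 U L T CT u l t W C = true)
    (hCT : ∀ j < 440, gt CT j = cumT j) (hD : DI 1024 u l t W low C) {N : ℕ}
    (hN : 2 ^ 100 ≤ N) : Cnt N := by
  iterate 2 replace h := frc_true h
  obtain ⟨MU, h⟩ := mkT_spec _ _ _ _ _ h
  obtain ⟨ML, h⟩ := mkT_spec _ _ _ _ _ h
  obtain ⟨NU, h⟩ := mkT_spec _ _ _ _ _ h
  simp only [Bool.and_eq_true] at h
  obtain ⟨⟨⟨⟨⟨⟨⟨a1, a2⟩, a3⟩, a4⟩, a5⟩, a6⟩, a7⟩, a8⟩ := h
  replace a1 := allTo_spec a1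
  replace a2 := allTo_spec a2
  replace a3 := allTo_spec a3
  simp only [Bool.and_eq_true, Nat.ble_eq] at a1 a2 a3 a4
  replace a5 := ckU_spec (by norm_num) a5
  replace a6 := ckU_spec (by norm_num) a6
  obtain ⟨a7, a9⟩ := ckN_spec a7
  have S0 := SC_pos
  have tb : Tabs (17 / 16) (tl U 480 0 (26 / 27)) (tl L 480 0 (26 / 27))
      (tl T 640 (mn SC (gt t 719)) (57 / 58)) (tl (gt MU) 520 0 (26 / 27))
      (tl (gt ML) 520 0 (26 / 27)) (tl (gt NU) 720 0 (57 / 58)) (b0 (gt u) C) (b0 (gt l) C)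
      fun j => mn SC (gt t (min j 719)) / SC := by
    refine ⟨fun J X hX hJ => ?_, fun J X hX hJ => ?_, fun J X hX hJ => ?_,
      tl_anti (fun i hi => (a1 i hi).1) (Nat.zero_le _) (by norm_num) (by norm_num),
      tl_anti (fun i hi => (a1 i hi).2) (Nat.zero_le _) (by norm_num) (by norm_num),
      tl_anti a2 a7 (by norm_num) (by norm_num), ?_, ?_, tl_nonneg (by norm_num),
      fun j hj => (a5 j hj).1, fun j hj => (a5 j hj).2.1,
      fun j hj => (a5 j hj).2.2.imp id fun h => ?_, tl_nonneg (by norm_num),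
      fun j hj => (a6 j hj).1, fun j hj => (a6 j hj).2.1, fun j => ?_, tl_nonneg (by norm_num),
      fun j => (a9 j).1, fun j => (a9 j).2.1, fun j => (a9 j).2.2⟩
    · unfold b0
      split_ifs with h
      exacts [hD.hu J h X hX hJ, (hD.hC.tail (not_lt.1 h) hX hJ).1]
    · unfold b0
      split_ifs with h
      exacts [hD.hl J h X hX hJ, (hD.hC.tail (not_lt.1 h) hX hJ).2]
    · rcases mn_cases SC (gt t (min J 719)) with h | h <;> rw [h.1]
      · exact TX_triv _ (div_self S0.ne').ge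
      · refine hD.ht _ (by omega) X hX (le_trans ?_ hJ)
        exact mul_le_mul_of_nonneg_right (Nat.cast_le.2 (min_le_left _ _))
          (by linarith [log_two_gt_d9])
    · rw [tl_le (Nat.zero_le _), one_le_div S0]; exact_mod_cast a3 0 (by norm_num)
    · rw [tl_le (Nat.zero_le _), one_le_div S0]; exact_mod_cast a4
    · obtain ⟨h1, h2⟩ := h
      rw [Bool.and_eq_true, Nat.blt_eq, Nat.ble_eq] at h2
      have h3 : (T j : ℝ) / SC < 1 := (div_lt_one S0).2 (by exact_mod_cast h2.1)
      rw [tl_le (i := j) (n := 640) (by omega)]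
      refine ⟨h3, le_trans ?_ (mul_le_mul_of_nonneg_right (add_le_add_right (by
        simpa using lo_le (T := U) (n := 480) 26 27 (Nat.zero_le _) j) 1) (by linarith))⟩
      have h4 := (Nat.cast_le (α := ℝ)).2 h2.2
      rw [Nat.cast_mul, Nat.cast_mul, Nat.cast_mul, Nat.cast_mul, Nat.cast_sub h2.1.le] at h4
      push_cast at h4
      rw [one_add_div S0.ne', one_sub_div S0.ne', div_mul_div_comm, le_div_iff₀ (by positivity)]
      linarith
    · rcases Nat.lt_or_ge j 80 with h | h
      · left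
        rw [tl_le (by omega), one_le_div S0]; exact_mod_cast a3 j h
      · refine ((a6 j h).2.2.imp (fun h' => ⟨h, h'⟩) fun h' => ?_).symm
        refine le_trans ?_ (by simpa using lo_le (T := L) (n := 480) 26 27 (Nat.zero_le _) j)
        rw [one_le_div S0]; exact_mod_cast Nat.le_of_ble_eq_true h'.2
  have N0 : (0 : ℝ) < N := by exact_mod_cast lt_of_lt_of_le (by norm_num) hN
  set z := Nat.nthRoot 10 N with hz
  have z1 : z ^ 10 ≤ N := Nat.pow_nthRoot_le (Or.inl (by norm_num))
  have z2 : N < (z + 1) ^ 10 := Nat.lt_pow_nthRoot_add_one (by norm_num) _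
  have z3 : 1024 ≤ z := Nat.lt_succ_iff.1 (lt_of_pow_lt_pow_left₀ 10 (by positivity)
    (lt_of_le_of_lt (le_trans (by norm_num) hN) z2))
  have z4 : (1024 : ℝ) ≤ z := by exact_mod_cast z3
  have l2 := two_le_log (x := z) (by linarith)
  have l3 : log (z ^ 10) ≤ log N := log_le_log (by positivity) (by exact_mod_cast z1)
  have l4 : log N < log ((z + 1) ^ 10) := log_lt_log N0 (by exact_mod_cast z2)
  have l5 := log_succ_up (x := z) (by linarith)
  have l6 : 1 / (z : ℝ) ≤ 1 / 1024 := one_div_le_one_div_of_le (by norm_num) z4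
  have l7 : 1 / (z + 1 : ℝ) ≤ 1 / 1024 := one_div_le_one_div_of_le (by norm_num) (by linarith)
  rw [log_pow] at l3 l4
  have as := fun (X : ℝ) (hX : 0 < X) (i : ℕ) => asym hK (by norm_num) tb z3 hX (i := i)
  refine chk2_spec (z := z) (a0 := 40) (lam := log z / 40) a8 (by exact_mod_cast N0)
    ⟨by linarith, by omega, by push_cast at *; linarith, by push_cast at *; linarith,
    by push_cast; linarith, by push_cast; linarith, ?_, le_rfl,
    by norm_num, fun a h1 h2 X hX h3 => ?_, fun a h1 x hx h2 => ?_, fun j h1 h2 s hs => ?_⟩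
  · have := (as N N0 400 (by push_cast at *; linarith)).1
    rwa [tl_le (by norm_num)] at this
  · have := (as X hX a (by linarith)).2 h1
    rwa [tl_le (by omega)] at this
  · exact hA_asym z3 hD.hV h1 hx h2
  · have b1 := cum_big z3 (lam := log z / 40) (by ring) (by omega : 39 ≤ j) (by omega) le_rfl s hs
    rw [hCT j (by omega), hCT 39 (by norm_num), cumT, Nat.ble_eq_true_of_le h1, cond_true, cumT,
      show Nat.ble 40 39 = false from rfl, cond_false, Nat.add_sub_cancel_left, le_div_iff₀ S0]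
    rwa [add_sub_cancel_right] at b1

theorem all_true2 : runAll2 (finC2 (g40 litU) (g40 litL) (g40 litT)) = true := by decide +kernel

theorem cnt {N : ℕ} (h : 12 ≤ N) : Cnt N := by
  obtain ⟨h2, CT, u, l, t, W, low, C, h3, h4, h5⟩ := runAll2_spec all_true2
  rcases Nat.lt_or_ge N (2 ^ 100) with h' | h'
  · refine h2 N h ?_
    have : log N < log (2 ^ 100) := log_lt_log (by exact_mod_cast (by omega : 0 < N))
      (by exact_mod_cast h')
    rw [log_pow] at this
    push_cast at *
    linarith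
  · exact finC2_spec h5 h3 h4 h'

end Pool.Agent.P.MP_8be758_nt
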