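import Pool.Agent.P.MP_8be758_nt.Lev

/-! Almost prime values of `x ^ 2 + x + A` in short intervals. -/

namespace Pool.Agent.P.MP_8be758_nt

open Finset Real Pool.Agent.P.MP_e94e4b_nt
open ArithmeticFunction (cardFactors)

/-- the truncated valuation -/
def cv (p K : ℕ) (m : ℤ) : ℕ := ((Icc 1 K).filter fun k => ((p ^ k : ℕ) : ℤ) ∣ m).card

theorem cv_dvd (p K : ℕ) (m : ℤ) : ((p ^ cv p K m : ℕ) : ℤ) ∣ m := by
  by_contra h
  have h1 : ((Icc 1 K).filter fun k => ((p ^ k : ℕ) : ℤ) ∣ m) ⊆ Ioo 0 (cv p K m) := fun k hk => by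
    obtain ⟨h2, h3⟩ := mem_filter.1 hk
    refine mem_Ioo.2 ⟨(mem_Icc.1 h2).1, not_le.1 fun h4 => h (dvd_trans ?_ h3)⟩
    exact Int.natCast_dvd_natCast.2 (pow_dvd_pow _ h4)
  have h2 : cv p K m ≤ cv p K m - 0 - 1 := (card_le_card h1).trans (Nat.card_Ioo _ _).le
  rw [show cv p K m = 0 by omega] at h
  simp at h

theorem le_cv {p K v : ℕ} {m : ℤ} (h1 : v ≤ K) (h2 : ((p ^ v : ℕ) : ℤ) ∣ m) : v ≤ cv p K m := by
  have : Icc 1 v ⊆ (Icc 1 K).filter fun k => ((p ^ k : ℕ) : ℤ) ∣ m := fun k hk =>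
    mem_filter.2 ⟨mem_Icc.2 ⟨(mem_Icc.1 hk).1, (mem_Icc.1 hk).2.trans h1⟩,
      dvd_trans (Int.natCast_dvd_natCast.2 (pow_dvd_pow _ (mem_Icc.1 hk).2)) h2⟩
  exact le_trans (by simp) (card_le_card this)

theorem cv_le (p K : ℕ) (m : ℤ) : cv p K m ≤ K := (card_filter_le _ _).trans (by simp)

theorem cv_split {p : ℕ} (hp : p.Prime) (K : ℕ) (A c : ℤ) (D : Finset ℤ) : ∃ a b : ℤ, ∀ t ∈ D,
    cv p K ((c + 3 * t) ^ 2 + (c + 3 * t) + A) ≤ cv p K (a + 3 * t) + cv p K (b + 3 * t) := by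
  rcases D.eq_empty_or_nonempty with rfl | hD
  · simp
  obtain ⟨s, -, hs⟩ := exists_max_image D (fun t => cv p K ((c + 3 * t) ^ 2 + (c + 3 * t) + A)) hD
  refine ⟨-3 * s, 2 * c + 3 * s + 1, fun t ht => not_lt.1 fun h => ?_⟩
  have h1 := dvd_sub (cv_dvd p K ((c + 3 * t) ^ 2 + (c + 3 * t) + A))
    ((Int.natCast_dvd_natCast.2 (pow_dvd_pow p (hs t ht))).trans (cv_dvd p K _))
  rw [show (c + 3 * t) ^ 2 + (c + 3 * t) + A - ((c + 3 * s) ^ 2 + (c + 3 * s) + A) =
    (-3 * s + 3 * t) * (2 * c + 3 * s + 1 + 3 * t) by ring] at h1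
  have h2 := cv_le p K ((c + 3 * t) ^ 2 + (c + 3 * t) + A)
  rcases Int.succ_dvd_or_succ_dvd_of_succ_sum_dvd_mul hp (cv_dvd p K _) (cv_dvd p K _)
    ((Int.natCast_dvd_natCast.2 (pow_dvd_pow p h)).trans h1) with h3 | h3 <;>
    have := le_cv (K := K) (by omega) h3 <;> omega

theorem greedy_one {p : ℕ} [Fact p.Prime] (S : Finset (ZMod p)) (hS : S.card < p) (G : Finset ℤ)
    (hG : ∀ t ∈ G, (t : ZMod p) ∉ S) : ∃ b, b ∉ S ∧
      ((G.filter fun t : ℤ => (t : ZMod p) ∉ insert b S).card : ℝ) * (p - S.card) ≤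
        G.card * (p - S.card - 1) := by
  have h1 : (Sᶜ.card : ℝ) = p - S.card := by
    rw [card_compl, ZMod.card, Nat.cast_sub hS.le]
  have h2 : (0 : ℝ) < p - S.card := sub_pos.2 (by exact_mod_cast hS)
  obtain ⟨b, h3, h4⟩ := exists_le_sum_fiber_of_maps_to_of_nsmul_le_sum (s := G) (t := Sᶜ)
    (f := fun t : ℤ => (t : ZMod p)) (w := fun _ => (1 : ℝ)) (b := G.card / (p - S.card))
    (fun t ht => mem_compl.2 (hG t ht)) (card_pos.1 (by exact_mod_cast h1 ▸ h2))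
    (by rw [nsmul_eq_mul, h1, mul_div_cancel₀ _ h2.ne']; simp)
  refine ⟨b, mem_compl.1 h3, ?_⟩
  rw [sum_const, nsmul_eq_mul, mul_one, div_le_iff₀ h2] at h4
  have h5 := card_filter_add_card_filter_not (s := G) fun t : ℤ => (t : ZMod p) = b
  have h6 : (G.filter fun t : ℤ => (t : ZMod p) ∉ insert b S).card ≤
      (G.filter fun t : ℤ => ¬ (t : ZMod p) = b).card := card_le_card fun t ht =>
    mem_filter.2 ⟨(mem_filter.1 ht).1, fun h => (mem_filter.1 ht).2 (h ▸ mem_insert_self _ _)⟩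
  have h7 : (((G.filter fun t : ℤ => (t : ZMod p) ∉ insert b S).card : ℝ) +
      (G.filter fun t : ℤ => (t : ZMod p) = b).card ≤ G.card) := by exact_mod_cast (by omega)
  nlinarith

theorem greedy_two {p : ℕ} [Fact p.Prime] (h5 : 5 ≤ p) (k : ℕ) : ∀ (S : Finset (ZMod p)),
    S.card + k = 2 → ∀ G : Finset ℤ, (∀ t ∈ G, (t : ZMod p) ∉ S) → ∃ S', S ⊆ S' ∧ S'.card = 2 ∧
      ((G.filter fun t : ℤ => (t : ZMod p) ∉ S').card : ℝ) * (p - S.card) ≤ G.card * (p - 2) := by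
  induction k with
  | zero =>
    intro S h G _
    refine ⟨S, Subset.refl _, h, ?_⟩
    rw [show S.card = 2 from h]
    exact mul_le_mul_of_nonneg_right (by exact_mod_cast card_filter_le _ _)
      (sub_nonneg.2 (by exact_mod_cast (by omega : 2 ≤ p)))
  | succ k ih =>
    intro S h G hG
    obtain ⟨b, h1, h2⟩ := greedy_one S (by omega) G hG
    obtain ⟨S', h3, h4, h6⟩ := ih (insert b S) (by rw [card_insert_of_notMem h1]; omega) _
      fun t ht => (mem_filter.1 ht).2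
    refine ⟨S', (subset_insert _ _).trans h3, h4, ?_⟩
    rw [filter_filter, filter_congr (q := fun t : ℤ => (t : ZMod p) ∉ S')
      fun t _ => ⟨fun h => h.2, fun h => ⟨fun h' => h (h3 h'), h⟩⟩, card_insert_of_notMem h1] at h6
    have h7 : (S.card : ℝ) ≤ 1 := by exact_mod_cast (by omega)
    have h8 : (5 : ℝ) ≤ p := by exact_mod_cast h5
    push_cast at h6
    refine le_of_mul_le_mul_right ?_ (show (0 : ℝ) < p - S.card - 1 by linarith)
    nlinarith [mul_le_mul_of_nonneg_right h6 (show (0 : ℝ) ≤ p - S.card by linarith),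
      mul_le_mul_of_nonneg_right h2 (show (0 : ℝ) ≤ p - 2 by linarith)]

theorem greedy_prime {p : ℕ} (hp : p.Prime) (h5 : 5 ≤ p) (A c : ℤ) (G : Finset ℤ)
    (hG : ∀ t ∈ G, ¬ (p : ℤ) ∣ (c + 3 * t) ^ 2 + (c + 3 * t) + A) : ∃ a b : ℤ, ¬ (p : ℤ) ∣ a - b ∧
      (∀ t, ¬ (p : ℤ) ∣ t - a → ¬ (p : ℤ) ∣ t - b → ¬ (p : ℤ) ∣ (c + 3 * t) ^ 2 + (c + 3 * t) + A) ∧
      ((G.filter fun t => ¬ (p : ℤ) ∣ t - a ∧ ¬ (p : ℤ) ∣ t - b).card : ℝ) *
        (1 - (jacobiSym (1 - 4 * A) p + 1) / p) ≤ G.card * (1 - 2 / p) := by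
  classical
  have := Fact.mk hp
  set S : Finset (ZMod p) := univ.filter fun s => (c + 3 * s) ^ 2 + (c + 3 * s) + A = 0 with hS
  have mS : ∀ t : ℤ, (t : ZMod p) ∈ S ↔ (p : ℤ) ∣ (c + 3 * t) ^ 2 + (c + 3 * t) + A := fun t => by
    rw [← ZMod.intCast_zmod_eq_zero_iff_dvd, hS, mem_filter]
    push_cast
    simp
  have n6 : (6 : ZMod p) ≠ 0 := fun h => by
    have : ((6 : ℤ) : ZMod p) = 0 := by exact_mod_cast h
    rw [ZMod.intCast_zmod_eq_zero_iff_dvd] at this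
    exact hp.one_lt.ne' (by
      exact_mod_cast Int.isUnit_iff_natAbs_eq.1 ((coprime_six hp h5).isUnit_of_dvd' this dvd_rfl))
  have n4 : (4 : ZMod p) ≠ 0 := fun h => n6 (by
    have : (2 : ZMod p) = 0 := pow_eq_zero_iff (n := 2) (by norm_num) |>.1 (by linear_combination h)
    linear_combination 3 * this)
  have cS : (S.card : ℤ) = jacobiSym (1 - 4 * A) p + 1 := by
    rw [← jacobiSym.legendreSym.to_jacobiSym, ← legendreSym.card_sqrts p (by omega)]
    congr 1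
    refine card_bij (fun s _ => 2 * c + 1 + 6 * s) (fun s hs => ?_) (fun s _ s' _ h => ?_)
      fun y hy => ⟨(y - (2 * c + 1)) / 6, ?_, by field_simp; ring⟩
    · have := (mem_filter.1 hs).2
      simp only [Set.mem_toFinset, Set.mem_ofPred_eq]
      push_cast
      linear_combination 4 * this
    · exact mul_left_cancel₀ n6 (add_left_cancel h)
    · simp only [Set.mem_toFinset, Set.mem_ofPred_eq] at hy
      push_cast at hy
      refine mem_filter.2 ⟨mem_univ _, mul_left_cancel₀ n4 ?_⟩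
      have e : y = 2 * c + 1 + 6 * ((y - (2 * c + 1)) / 6) := by field_simp; ring
      generalize (y - (2 * c + 1)) / 6 = s at *
      rw [e] at hy
      linear_combination hy
  have c2 : S.card ≤ 2 := by rcases jacobiSym.trichotomy (1 - 4 * A) p with h | h | h <;> omega
  obtain ⟨S', h1, h2, h3⟩ := greedy_two h5 (2 - S.card) S (by omega) G
    fun t ht h => hG t ht ((mS t).1 h)
  obtain ⟨a, b, h4, rfl⟩ := card_eq_two.1 h2
  obtain ⟨a, rfl⟩ := ZMod.intCast_surjective a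
  obtain ⟨b, rfl⟩ := ZMod.intCast_surjective b
  have e : ∀ t a : ℤ, (p : ℤ) ∣ t - a ↔ (t : ZMod p) = a := fun t a => by
    rw [eq_comm, ZMod.intCast_eq_intCast_iff_dvd_sub]
  refine ⟨a, b, fun h => h4 ((e a b).1 h), fun t h6 h7 h8 => ?_, ?_⟩
  · have := h1 ((mS t).2 h8)
    simp only [mem_insert, mem_singleton, ← e] at this
    tauto
  · simp only [mem_insert, mem_singleton, ← e, not_or] at h3
    have p0 : (0 : ℝ) < p := by exact_mod_cast hp.pos
    have c3 : (S.card : ℝ) = jacobiSym (1 - 4 * A) p + 1 := by exact_mod_cast cS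
    rw [← c3, one_sub_div p0.ne', one_sub_div p0.ne', ← mul_div_assoc, ← mul_div_assoc]
    exact div_le_div_of_nonneg_right h3 p0.le

/-- the true density -/
noncomputable def Vr (A : ℤ) (z : ℕ) : ℝ := ∏ p ∈ PZ z, (1 - (jacobiSym (1 - 4 * A) p + 1) / (p : ℝ))

theorem jac_bd (a : ℤ) (p : ℕ) : (-1 : ℝ) ≤ jacobiSym a p ∧ (jacobiSym a p : ℝ) ≤ 1 := by
  rcases jacobiSym.trichotomy a p with h | h | h <;> rw [h] <;> norm_num

theorem fac_bd (a : ℤ) {p : ℕ} (h : 5 ≤ p) : 0 ≤ 1 - (jacobiSym a p + 1) / (p : ℝ) ∧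
    1 - (jacobiSym a p + 1) / (p : ℝ) ≤ 1 := by
  have := jac_bd a p
  have h5 : (5 : ℝ) ≤ p := by exact_mod_cast h
  exact ⟨sub_nonneg.2 ((div_le_one (by linarith)).2 (by linarith)),
    sub_le_self _ (div_nonneg (by linarith) (by linarith))⟩

theorem Vr_anti (A : ℤ) {w z : ℕ} (h : w ≤ z) : Vr A z ≤ Vr A w :=
  prod_le_prod_of_subset_of_le_one (PZ_mono h) (fun _ hp => (fac_bd _ (mem_PZ.1 hp).2.1).1)
    fun _ hp _ => (fac_bd _ (mem_PZ.1 hp).2.1).2

open Classical in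
theorem greedy (A c : ℤ) {z : ℕ} (hz : 5 ≤ z) : ∀ G : Finset ℤ,
    (∀ t ∈ G, ∀ p ∈ PZ z, ¬ (p : ℤ) ∣ (c + 3 * t) ^ 2 + (c + 3 * t) + A) → ∃ α β, Ok z α β ∧
      (∀ t, Sif z α β t → ∀ p ∈ PZ z, ¬ (p : ℤ) ∣ (c + 3 * t) ^ 2 + (c + 3 * t) + A) ∧
      ((G.filter (Sif z α β)).card : ℝ) * Vr A z ≤ G.card * V z := by
  induction z, hz using Nat.le_induction with
  | base =>
    refine fun G _ => ⟨0, 0, by simp [Ok, PZ_five], by simp [PZ_five], ?_⟩
    simp only [Vr, PZ_five, V_five, prod_empty, mul_one]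
    exact_mod_cast card_filter_le _ _
  | succ z hz ih =>
    intro G hG
    by_cases hp : z.Prime
    swap
    · simp only [Ok, Sif, Vr, V, PZ_succ_of_not hp] at ih hG ⊢
      exact ih G hG
    have e := PZ_succ_of_prime hp hz
    obtain ⟨a, b, h1, h2, h3⟩ := greedy_prime hp hz A c G fun t ht =>
      hG t ht z (e ▸ mem_insert_self _ _)
    obtain ⟨α, β, h4, h6, h7⟩ := ih (G.filter fun t => ¬ (z : ℤ) ∣ t - a ∧ ¬ (z : ℤ) ∣ t - b)
      fun t ht p hp => hG t (mem_filter.1 ht).1 p (PZ_mono (Nat.le_succ z) hp)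
    have ne : ∀ p ∈ PZ z, p ≠ z := fun p hp => (mem_PZ.1 hp).2.2.ne
    have e2 : ∀ t, Sif (z + 1) (Function.update α z a) (Function.update β z b) t ↔
        (¬ (z : ℤ) ∣ t - a ∧ ¬ (z : ℤ) ∣ t - b) ∧ Sif z α β t := fun t => by
      simp only [Sif, e, forall_mem_insert, Function.update_self]
      exact and_congr_right fun _ => forall₂_congr fun p hp => by
        rw [Function.update_of_ne (ne p hp), Function.update_of_ne (ne p hp)]
    refine ⟨Function.update α z a, Function.update β z b, ?_, fun t ht => ?_, ?_⟩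
    · simp only [Ok, e, forall_mem_insert, Function.update_self]
      exact ⟨h1, fun p hp => by
        rw [Function.update_of_ne (ne p hp), Function.update_of_ne (ne p hp)]; exact h4 p hp⟩
    · rw [e, forall_mem_insert]
      exact ⟨h2 t ((e2 t).1 ht).1.1 ((e2 t).1 ht).1.2, h6 t ((e2 t).1 ht).2⟩
    · rw [filter_congr fun t _ => e2 t, ← filter_filter, V_succ_of_prime hp hz, Vr, e,
        prod_insert (self_notMem_PZ z), ← Vr]
      nlinarith [mul_le_mul_of_nonneg_right h7 (fac_bd (1 - 4 * A) hz).1,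
        mul_le_mul_of_nonneg_right h3 (V_pos z).le]

noncomputable def goV (f : ℕ) : ℕ → ℕ → Bool :=
  Nat.rec (fun _ _ => true) (fun _ ih n W => frc (cond (isP n) (W * (n - 2) / n) W) fun W' =>
    frc (n + 1) fun n' => cond (Nat.ble (36 * SC) (W' * Nat.log2 (n ^ 4) ^ 2)) (ih n' W') false) f

theorem goV_spec (f : ℕ) : ∀ n W : ℕ, 5 ≤ n → n + f ≤ 1024 → W ≤ V n * SC → goV f n W = true →
    ∀ m, n ≤ m → m < n + f → 17 / 16 ≤ V (m + 1) * log m ^ 2 := by
  induction f with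
  | zero => intro n W _ _ _ _ m _ _; omega
  | succ f ih =>
    intro n W h1 h2 h3 h4 m h5 h6
    iterate 2 replace h4 := frc_true h4
    obtain ⟨h7, h8⟩ := cond_true' h4
    have n5 : (5 : ℝ) ≤ n := by exact_mod_cast h1
    have h9 : (cond (isP n) (W * (n - 2) / n) W : ℕ) ≤ V (n + 1) * SC := by
      have := isP_iff (n := n) (by omega)
      cases h : isP n <;> rw [h] at this
      · rwa [V_succ_of_not fun hp => by simpa using this.2 ⟨hp, h1⟩]
      · refine Nat.cast_div_le.trans ?_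
        rw [Nat.cast_mul, Nat.cast_sub (by omega), V_succ_of_prime (this.1 rfl).1 h1,
          mul_right_comm, mul_div_assoc, sub_div, div_self (by linarith)]
        exact mul_le_mul_of_nonneg_right h3 (one_sub_pos h1).le
    rcases Nat.lt_or_ge n m with h | h
    · exact ih _ _ (by omega) (by omega) h9 h8 m h (by omega)
    obtain rfl : n = m := by omega
    have a1 := (Nat.cast_le (α := ℝ)).2 (Nat.le_of_ble_eq_true h7)
    have a2 : log (2 ^ (n ^ 4).log2) ≤ log (n ^ 4) := log_le_log (by positivity)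
      (by exact_mod_cast Nat.log2_self_le (by positivity))
    rw [log_pow, log_pow] at a2
    rw [Nat.cast_mul, Nat.cast_mul, Nat.cast_pow] at a1
    have k0 : (0 : ℝ) ≤ (n ^ 4).log2 := Nat.cast_nonneg _
    generalize ((n ^ 4).log2 : ℝ) = k at *
    have a3 := a1.trans (mul_le_mul_of_nonneg_right h9 (sq_nonneg k))
    have a4 : 36 ≤ V (n + 1) * k ^ 2 := le_of_mul_le_mul_right (by push_cast at a3; linarith) SC_pos
    have a5 : (k * 0.693) ^ 2 ≤ (4 * log n) ^ 2 := pow_le_pow_left₀ (by positivity)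
      (by push_cast at a2; nlinarith [log_two_gt_d9]) 2
    nlinarith [mul_le_mul_of_nonneg_left a5 (V_pos (n + 1)).le]

theorem V_log {n : ℕ} (h : 3 ≤ n) : 1 ≤ V (n + 1) * log n ^ 2 := by
  have h1 := goV_spec 1019 5 SC le_rfl le_rfl (by simp [V_five]) (by decide +kernel)
  rcases Nat.lt_or_ge n 5 with h2 | h2
  · have : log 3 ≤ log n := log_le_log (by norm_num) (by exact_mod_cast h)
    have e : V (n + 1) = 1 := by interval_cases n <;> simp [V, PZ]
    rw [e]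
    nlinarith [log_three_gt_d9]
  rcases Nat.lt_or_ge n 1024 with h3 | h3
  · linarith [h1 n h2 h3]
  · have a1 := h1 1023 (by norm_num) (by norm_num)
    have a2 := hK 1024 n le_rfl h3
    have a3 : log (1023 : ℕ) ^ 2 ≤ log (1024 : ℕ) ^ 2 := pow_le_pow_left₀ (log_natCast_nonneg _)
      (log_le_log (by norm_num) (by norm_num)) 2
    have a4 := (a1.trans (mul_le_mul_of_nonneg_left a3 (V_pos _).le)).trans a2
    linarith

theorem prod_bd (A : ℤ) {L : ℕ} (h : 3 ≤ L) :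
    (∏ p ∈ (Icc 3 L).filter Nat.Prime, (1 - (jacobiSym (1 - 4 * A) p : ℝ) / (p - 1))) / log L ≤
      3 / 2 * Vr A (L + 1) := by
  have e : (Icc 3 L).filter Nat.Prime = insert 3 (PZ (L + 1)) := by
    ext p
    simp only [mem_filter, mem_Icc, mem_insert, mem_PZ]
    constructor
    · rintro ⟨⟨h1, h2⟩, h3⟩
      have : p ≠ 4 := by rintro rfl; exact absurd h3 (by norm_num)
      exact (eq_or_ne p 3).imp id fun _ => ⟨h3, by omega, by omega⟩
    · rintro (rfl | ⟨h1, h2, h3⟩)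
      exacts [⟨⟨le_rfl, h⟩, Nat.prime_three⟩, ⟨⟨by omega, by omega⟩, h1⟩]
  have l0 := log_nat_pos (w := L) (by omega)
  have c0 : 0 ≤ ∏ p ∈ PZ (L + 1), (1 - (jacobiSym (1 - 4 * A) p : ℝ) / (p - 1)) :=
    prod_nonneg fun p hp => by
      have : (5 : ℝ) ≤ p := by exact_mod_cast (mem_PZ.1 hp).2.1
      exact sub_nonneg.2 ((div_le_one (by linarith)).2 (by linarith [(jac_bd (1 - 4 * A) p).2]))
  have e2 : Vr A (L + 1) = (∏ p ∈ PZ (L + 1), (1 - (jacobiSym (1 - 4 * A) p : ℝ) / (p - 1))) *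
      ∏ p ∈ PZ (L + 1), (1 - 1 / (p : ℝ)) := by
    rw [← prod_mul_distrib]
    refine prod_congr rfl fun p hp => ?_
    have : (5 : ℝ) ≤ p := by exact_mod_cast (mem_PZ.1 hp).2.1
    have : (p : ℝ) - 1 ≠ 0 := by linarith
    field_simp
    ring
  have p0 : 0 ≤ ∏ p ∈ PZ (L + 1), (1 - 1 / (p : ℝ)) := prod_nonneg fun p hp => by
    have : (5 : ℝ) ≤ p := by exact_mod_cast (mem_PZ.1 hp).2.1
    exact sub_nonneg.2 ((div_le_one (by linarith)).2 (by linarith))
  have h1 : V (L + 1) ≤ (∏ p ∈ PZ (L + 1), (1 - 1 / (p : ℝ))) ^ 2 := by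
    rw [← prod_pow]
    refine prod_le_prod (fun p hp => (one_sub_pos (mem_PZ.1 hp).2.1).le) fun p _ => ?_
    rw [div_eq_mul_one_div 2]
    nlinarith [sq_nonneg (1 / (p : ℝ))]
  have h2 : 1 ≤ (∏ p ∈ PZ (L + 1), (1 - 1 / (p : ℝ))) * log L :=
    le_of_pow_le_pow_left₀ (n := 2) (by norm_num) (mul_nonneg p0 l0.le) (by
      rw [mul_pow, one_pow]
      exact (V_log h).trans (mul_le_mul_of_nonneg_right h1 (sq_nonneg _)))
  rw [e, prod_insert (fun h => by have := (mem_PZ.1 h).2.1; omega), e2, div_le_iff₀ l0]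
  have h3 := (jac_bd (1 - 4 * A) 3).1
  have h4 : 1 - (jacobiSym (1 - 4 * A) 3 : ℝ) / ((3 : ℕ) - 1) ≤ 3 / 2 := by
    norm_num
    linarith
  nlinarith [mul_le_mul_of_nonneg_right h4 c0, mul_le_mul_of_nonneg_left h2 c0]

theorem omega_small {n : ℕ} (h1 : Odd n) (h2 : n < 729) : cardFactors n ≤ 5 := by
  have h3 := List.pow_card_le_prod n.primeFactorsList 3 fun p hp => by
    obtain ⟨h4, h5⟩ := (Nat.mem_primeFactorsList h1.pos.ne').1 hp
    have := h4.two_le
    have : p ≠ 2 := by rintro rfl; exact (Nat.not_even_iff_odd.2 h1) (even_iff_two_dvd.2 h5)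
    omega
  rw [Nat.prod_primeFactorsList h1.pos.ne', ← ArithmeticFunction.cardFactors_apply] at h3
  by_contra h
  have := Nat.pow_le_pow_right (n := 3) (by norm_num) (not_le.1 h)
  omega

theorem count {A M L : ℕ} (hA : Odd A) (h : ((M + L) ^ 2 + (M + L) + A) ^ 5 ≤ L ^ 12) (h3 : 3 ≤ L) :
    L / 180 * Vr A (L + 1) ≤
      ((Ico M (M + L)).filter fun x => cardFactors (x ^ 2 + x + A) ≤ 5).card := by
  classical
  have od : ∀ x : ℕ, Odd (x ^ 2 + x + A) := fun x => by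
    rw [show x ^ 2 + x = x * (x + 1) by ring]
    exact (Nat.even_mul_succ_self x).add_odd hA
  have bd : ∀ x : ℕ, x < M + L → (x ^ 2 + x + A) ^ 5 ≤ L ^ 12 := fun x hx =>
    le_trans (by gcongr) h
  rcases Nat.lt_or_ge L 12 with h1 | h1
  · have a1 : Vr A (L + 1) ≤ 1 := (Vr_anti A (w := 0) (Nat.zero_le _)).trans (by simp [Vr, PZ])
    have a2 : 1 ≤ ((Ico M (M + L)).filter fun x => cardFactors (x ^ 2 + x + A) ≤ 5).card :=
      card_pos.2 ⟨M, mem_filter.2 ⟨mem_Ico.2 ⟨le_rfl, by omega⟩, omega_small (od M)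
        (lt_of_pow_lt_pow_left₀ 5 (by norm_num) ((bd M (by omega)).trans_lt
          (lt_of_le_of_lt (Nat.pow_le_pow_left h1.le 12) (by norm_num))))⟩⟩
    have a3 : (L : ℝ) ≤ 12 := by exact_mod_cast h1.le
    refine le_trans ?_ (Nat.one_le_cast.2 a2)
    nlinarith [mul_le_mul_of_nonneg_left a1 (show (0 : ℝ) ≤ L / 180 by positivity)]
  obtain ⟨z, hz, hzL, H⟩ := cnt h1
  obtain ⟨c, hc⟩ : ∃ c : ℤ, ∀ t : ℤ, ¬ (3 : ℤ) ∣ (c + 3 * t) ^ 2 + (c + 3 * t) + A := by
    by_cases h : (A : ℤ) % 3 = 0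
    · refine ⟨1, fun t => ?_⟩
      rw [show (1 + 3 * t) ^ 2 + (1 + 3 * t) + A = 3 * (3 * t ^ 2 + 3 * t) + 2 + A by ring]
      omega
    · refine ⟨0, fun t => ?_⟩
      rw [show (0 + 3 * t) ^ 2 + (0 + 3 * t) + A = 3 * (3 * t ^ 2 + t) + A by ring]
      omega
  set n : ℤ → ℕ := fun t => (c + 3 * t).toNat ^ 2 + (c + 3 * t).toNat + A with hn
  have sg : ∀ t ∈ seg ((M - c) / 3) (L / 3), M ≤ c + 3 * t ∧ c + 3 * t < M + L := fun t ht => by
    obtain ⟨a1, a2⟩ := mem_seg.1 ht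
    exact ⟨by exact_mod_cast (show (M : ℝ) ≤ c + 3 * t by linarith),
      by exact_mod_cast (show (c : ℝ) + 3 * t < M + L by linarith)⟩
  have ne : ∀ t ∈ seg ((M - c) / 3) (L / 3), (n t : ℤ) = (c + 3 * t) ^ 2 + (c + 3 * t) + A :=
    fun t ht => by
      simp only [hn]
      push_cast
      rw [Int.toNat_of_nonneg (by have := sg t ht; omega)]
  set G := (seg ((M - c) / 3) (L / 3)).filter fun t => cardFactors (n t) ≤ 5 ∧
    ∀ p ∈ PZ z, ¬ (p : ℤ) ∣ (c + 3 * t) ^ 2 + (c + 3 * t) + A with hG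
  obtain ⟨α, β, o1, o2, o3⟩ := greedy A c hz G fun t ht => (mem_filter.1 ht).2.2
  have L0 : (0 : ℝ) ≤ L := Nat.cast_nonneg L
  have a1 := H (L / 3) ((M - c) / 3) α β n (by linarith) o1 (fun t ht => ?_) fun p K hp _ => ?_
  · have a2 : ((SS z α β ((M - c) / 3) (L / 3)).filter fun t => cardFactors (n t) ≤ 5).card ≤
        (G.filter (Sif z α β)).card := card_le_card fun t ht => by
      obtain ⟨b1, b2⟩ := mem_filter.1 ht
      obtain ⟨b3, b4⟩ := mem_SS.1 b1
      exact mem_filter.2 ⟨mem_filter.2 ⟨b3, b2, o2 t b4⟩, b4⟩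
    have a3 : G.card ≤ ((Ico M (M + L)).filter fun x => cardFactors (x ^ 2 + x + A) ≤ 5).card := by
      refine card_le_card_of_injOn (fun t => (c + 3 * t).toNat) (fun t ht => ?_) fun t ht s hs e => ?_
      · obtain ⟨b1, b2⟩ := mem_filter.1 (mem_coe.1 ht)
        have := sg t b1
        exact mem_coe.2 (mem_filter.2 ⟨mem_Ico.2 (by simp only; omega), b2.1⟩)
      · have := sg t (mem_filter.1 (mem_coe.1 ht)).1
        have := sg s (mem_filter.1 (mem_coe.1 hs)).1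
        simp only at e
        omega
    have v0 : 0 ≤ Vr A z := prod_nonneg fun _ hp => (fac_bd _ (mem_PZ.1 hp).2.1).1
    have a4 := (mul_le_mul_of_nonneg_right (a1.trans (Nat.cast_le.2 a2)) v0).trans o3
    have a5 : L / 180 * Vr A z ≤ G.card := le_of_mul_le_mul_right (by linarith) (V_pos z)
    exact (mul_le_mul_of_nonneg_left (Vr_anti A (by omega)) (by positivity)).trans
      (a5.trans (Nat.cast_le.2 a3))
  · obtain ⟨b3, b4⟩ := mem_SS.1 ht
    have := sg t b3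
    refine ⟨(od _).pos, bd _ (by omega), fun p hp hpz hd => ?_⟩
    have hd' := Int.natCast_dvd_natCast.2 hd
    rw [ne t b3] at hd'
    by_cases h5 : 5 ≤ p
    · exact o2 t b4 p (mem_PZ.2 ⟨hp, h5, hpz⟩) hd'
    · have := hp.two_le
      have h4 : p ≠ 4 := by rintro rfl; exact absurd hp (by norm_num)
      obtain rfl | rfl : p = 2 ∨ p = 3 := by omega
      · exact (Nat.not_even_iff_odd.2 (od _)) (even_iff_two_dvd.2 hd)
      · exact hc t hd'
  · obtain ⟨a, b, hab⟩ := cv_split hp K A c (SS z α β ((M - c) / 3) (L / 3))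
    refine ⟨a, b, fun t ht => le_trans (le_of_eq ?_) (hab t ht)⟩
    simp only [cv, ← ne t (mem_SS.1 ht).1, Int.natCast_dvd_natCast]

theorem main {A M L : ℕ} (hA : Odd A) (h : ((M + L) ^ 2 + (M + L) + A) ^ 5 ≤ L ^ 12) :
    1 / 270 * (∏ p ∈ (Icc 3 L).filter Nat.Prime, (1 - (jacobiSym (1 - 4 * A) p : ℝ) / (p - 1))) *
      (L / log L) ≤ ((Ico M (M + L)).filter fun x => cardFactors (x ^ 2 + x + A) ≤ 5).card := by
  have h3 : 3 ≤ L := by
    by_contra h3
    have h4 : (L ^ 2 + L + 1) ^ 5 ≤ L ^ 12 := le_trans (by have := hA.pos; gcongr <;> omega) h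
    have h5 : L < 3 := by omega
    interval_cases L <;> omega
  refine le_trans ?_ (count hA h h3)
  have := mul_le_mul_of_nonneg_left (prod_bd A h3) (show (0 : ℝ) ≤ L / 270 by positivity)
  refine le_trans (le_of_eq ?_) (this.trans (le_of_eq ?_)) <;> ring

end Pool.Agent.P.MP_8be758_nt
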