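import Pool.Agent.P.MP_e94e4b_nt.Tab

/-! The weighted sieve in counting form. -/

namespace Pool.Agent.P.MP_8be758_nt

open Finset Real Pool.Agent.P.MP_e94e4b_nt
open ArithmeticFunction (cardFactors)

theorem coprime_three {p : ℕ} (hp : p.Prime) (h5 : 5 ≤ p) : IsCoprime (3 : ℤ) p :=
  Nat.isCoprime_iff_coprime (m := 3).2 ((Nat.coprime_primes Nat.prime_three hp).2 (by omega))

theorem weighted2 {X Y x lam l δ : ℝ} {z i jz jy E : ℕ} (hl : 0 < lam) (hX : 0 < X) (hz : 5 ≤ z)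
    (hi1 : i * lam ≤ log X) (hj0 : 1 ≤ jz) (hjz : jz * lam ≤ log z) (hjy : jy ≤ i)
    (hL : LX z X l) (uu ex φ cum : ℕ → ℝ)
    (hU : ∀ j, jz ≤ j → j < jy → ∀ X : ℝ, 0 < X → (i - j - 1 : ℕ) * lam ≤ log X → UX z X (uu j))
    (hex : ∀ j, jz ≤ j → j < jy → ∀ p : ℕ, z ≤ p → j * lam ≤ log p →
      (i - j - 1 : ℕ) * lam ≤ log (X / p) →
      5 / 4 / p + (E / j - 1 : ℕ) * (25 / 8 * (p / X)) ≤ V z * ex j)
    (hφ : ∀ j, jz ≤ j → j < jy → (jy - j) * (1 + uu j + ex j) ≤ jy * φ j)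
    (hφ' : ∀ j, jz ≤ j → j < jy → φ (j + 1) ≤ φ j) (hφ0 : φ jy = 0)
    (hcum : ∀ j, jz ≤ j → j < jy → ∀ s : Finset ℕ,
      (∀ p ∈ s, p.Prime ∧ z ≤ p ∧ log p < (j + 1) * lam) → ∑ p ∈ s, 2 / (p : ℝ) ≤ cum j)
    (hE : E < 6 * jy)
    (hfin : jy * ∑ j ∈ Ico jz jy, (φ j - φ (j + 1)) * cum j ≤ (6 * jy - E) * (1 - l - δ))
    (hXY : X ≤ 25 / 8 * Y) {α β : ℕ → ℤ} (ho : Ok z α β) (n : ℤ → ℕ)
    (hn : ∀ t ∈ SS z α β x Y, 0 < n t ∧ log (n t) < E * lam ∧ ∀ p : ℕ, p.Prime → p < z → ¬ p ∣ n t)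
    (hv : ∀ p K : ℕ, p.Prime → z ≤ p → ∃ a b : ℤ, ∀ t ∈ SS z α β x Y,
      ((Icc 1 K).filter fun k => p ^ k ∣ n t).card ≤
        ((Icc 1 K).filter fun k => ((p ^ k : ℕ) : ℤ) ∣ a + 3 * t).card +
        ((Icc 1 K).filter fun k => ((p ^ k : ℕ) : ℤ) ∣ b + 3 * t).card) :
    Y * V z * δ ≤ ((SS z α β x Y).filter fun t => cardFactors (n t) ≤ 5).card := by
  classical
  have Y0 : 0 < Y := by linarith
  have Vz := V_pos z
  set D := SS z α β x Y with hD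
  have c0 : (0 : ℝ) < 6 * jy - E := sub_pos.2 (by exact_mod_cast hE)
  have jy0 : (0 : ℝ) < jy := by exact_mod_cast (by omega : 0 < jy)
  set L := jy * lam with hLdef
  have L0 : 0 < L := by positivity
  set P := (Ico z ⌈exp L⌉₊).filter Nat.Prime with hP
  have memP : ∀ p, p ∈ P ↔ p.Prime ∧ z ≤ p ∧ log p < L := fun p => by
    rw [hP, mem_filter, mem_Ico, Nat.lt_ceil]
    constructor
    · rintro ⟨⟨h1, h2⟩, h3⟩
      exact ⟨h3, h1, (log_lt_iff_lt_exp (by exact_mod_cast h3.pos)).2 h2⟩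
    · rintro ⟨h1, h2, h3⟩
      exact ⟨⟨h2, (log_lt_iff_lt_exp (by exact_mod_cast h1.pos)).1 h3⟩, h1⟩
  set J : ℕ → ℕ := fun p => ⌊log p / lam⌋₊ with hJ
  have J1 : ∀ p : ℕ, J p * lam ≤ log p := fun p => by
    rw [← le_div_iff₀ hl]; exact Nat.floor_le (div_nonneg (log_natCast_nonneg p) hl.le)
  have J2 : ∀ p : ℕ, log p < (J p + 1) * lam := fun p => by
    rw [← div_lt_iff₀ hl]; exact Nat.lt_floor_add_one _
  have J3 : ∀ p ∈ P, jz ≤ J p ∧ J p < jy := fun p hp => by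
    obtain ⟨h1, h2, h3⟩ := (memP p).1 hp
    refine ⟨Nat.le_floor ((le_div_iff₀ hl).2 (hjz.trans (log_le_log ?_ ?_))), ?_⟩
    · exact_mod_cast (by omega : 0 < z)
    · exact_mod_cast h2
    · exact_mod_cast lt_of_mul_lt_mul_right ((J1 p).trans_lt h3) hl.le
  set kk : ℕ → ℕ := fun p => E / J p with hkk
  set Wt : (ℕ → ℤ) → ℤ → ℝ := fun a t => ∑ p ∈ P, (1 - log p / L) *
    ((Icc 1 (kk p)).filter fun k => ((p ^ k : ℕ) : ℤ) ∣ a p + 3 * t).card with hWt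
  have w0 : ∀ p ∈ P, 0 ≤ 1 - log p / L := fun p hp =>
    sub_nonneg.2 ((div_le_one L0).2 ((memP p).1 hp).2.2.le)
  have Wt0 : ∀ a t, 0 ≤ Wt a t := fun a t =>
    sum_nonneg fun p hp => mul_nonneg (w0 p hp) (by positivity)
  choose! a b hab using fun p => hv p (kk p)
  have R : ∀ t ∈ D, (cardFactors (n t) : ℝ) ≤ E / jy + (Wt a t + Wt b t) := by
    intro t ht
    obtain ⟨h0, hlog, h2⟩ := hn t ht
    refine (richert h0 P kk L0 (fun p hp hd hL' => ?_) fun p hp => ((memP p).1 hp).2.2.le).trans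
      (add_le_add ?_ ?_)
    · have hp' : p ∈ P := (memP p).2 ⟨hp, not_lt.1 fun h => h2 p hp h hd, hL'⟩
      refine ⟨hp', (Nat.le_div_iff_mul_le (by have := J3 p hp'; omega)).2 ?_⟩
      have h3 : log ((p : ℝ) ^ (n t).factorization p) ≤ log (n t) := log_le_log
        (pow_pos (by exact_mod_cast hp.pos) _) (by exact_mod_cast Nat.ordProj_le p h0.ne')
      rw [log_pow] at h3
      have h4 := mul_le_mul_of_nonneg_left (J1 p) (Nat.cast_nonneg ((n t).factorization p))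
      have h5 : ((n t).factorization p : ℝ) * J p < E :=
        lt_of_mul_lt_mul_right (by linarith) hl.le
      exact_mod_cast h5.le
    · rw [hLdef, div_le_div_iff₀ L0 jy0]
      nlinarith
    · simp only [hWt]
      rw [← sum_add_distrib]
      refine sum_le_sum fun p hp => ?_
      rw [← mul_add]
      exact mul_le_mul_of_nonneg_left
        (by exact_mod_cast hab p ((memP p).1 hp).1 ((memP p).1 hp).2.1 t ht) (w0 p hp)
  have key : ∀ t ∈ D, 6 - (E : ℝ) / jy ≤ Wt a t + Wt b t +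
      if cardFactors (n t) ≤ 5 then 6 - (E : ℝ) / jy else 0 := by
    intro t ht
    split_ifs with h
    · linarith [Wt0 a t, Wt0 b t]
    · have : (6 : ℝ) ≤ cardFactors (n t) := by exact_mod_cast not_le.1 h
      linarith [R t ht]
  have side : ∀ A : ℕ → ℤ, ∑ t ∈ D, Wt A t ≤ Y * V z / 2 * ∑ p ∈ P, 2 / (p : ℝ) * φ (J p) := by
    intro A
    simp only [hWt]
    rw [sum_comm, mul_sum]
    refine sum_le_sum fun p hp => ?_
    obtain ⟨h1, h2, h3⟩ := (memP p).1 hp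
    obtain ⟨h4, h5⟩ := J3 p hp
    have p0 : (0 : ℝ) < p := by exact_mod_cast h1.pos
    have h6 : ((i - J p - 1 : ℕ) : ℝ) * lam ≤ log (X / p) := by
      rw [log_div (by positivity) p0.ne', Nat.sub_sub, Nat.cast_sub (by omega)]
      push_cast
      linarith [J2 p]
    have h7 := cnt_pow h1 h2 (hz.trans h2) (coprime_three h1 (hz.trans h2)) ho x (A := A p) hX hXY
      (hU _ h4 h5 _ (by positivity) h6) (hex _ h4 h5 p h2 (J1 p) h6)
    have h8 : 0 ≤ Y / p * V z * (1 + uu (J p) + ex (J p)) :=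
      le_trans (sum_nonneg fun _ _ => Nat.cast_nonneg _) h7
    have h9 : ∑ t ∈ D, (((Icc 1 (kk p)).filter fun k => ((p ^ k : ℕ) : ℤ) ∣ A p + 3 * t).card : ℝ) =
        ∑ k ∈ Icc 1 (kk p), ((D.filter fun t => ((p ^ k : ℕ) : ℤ) ∣ A p + 3 * t).card : ℝ) := by
      simp only [card_filter, Nat.cast_sum]
      exact sum_comm
    rw [← mul_sum, h9]
    refine (mul_le_mul_of_nonneg_left h7 (w0 p hp)).trans ?_
    have h10 : 1 - log p / L ≤ (jy - J p) / jy := by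
      rw [sub_div, div_self jy0.ne', sub_le_sub_iff_left, hLdef, div_le_div_iff₀ jy0 L0]
      nlinarith [J1 p]
    refine (mul_le_mul_of_nonneg_right h10 h8).trans ?_
    have h11 := mul_le_mul_of_nonneg_left (hφ _ h4 h5) (by positivity : 0 ≤ Y / p * V z / jy)
    refine le_trans (le_of_eq ?_) (h11.trans (le_of_eq ?_))
    · ring
    · field_simp
  have s1 := side a
  have s2 := side b
  have s3 := layer P J (fun p => 2 / (p : ℝ)) φ cum (fun p hp => ⟨(J3 p hp).1, (J3 p hp).2.le⟩)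
    hφ0 hφ' fun j h1 h2 => hcum j h1 h2 _ fun p hp => by
      obtain ⟨h3, h4⟩ := mem_filter.1 hp
      obtain ⟨h5, h6, -⟩ := (memP p).1 h3
      refine ⟨h5, h6, (J2 p).trans_le ?_⟩
      gcongr
  have s4 := card_nsmul_le_sum _ _ _ key
  rw [nsmul_eq_mul, sum_add_distrib, sum_add_distrib, ← sum_filter, sum_const, nsmul_eq_mul] at s4
  have s5 : Y * V z * (1 - l) ≤ D.card := hL Y α β x hXY ho
  have s6 : (6 - (E : ℝ) / jy) * jy = 6 * jy - E := by field_simp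
  have s7 := mul_le_mul_of_nonneg_left s3 (by positivity : 0 ≤ Y * V z)
  generalize ((D.filter fun t => cardFactors (n t) ≤ 5).card : ℝ) = g at *
  have s8 : (D.card - g) * (6 * (jy : ℝ) - E) ≤
      Y * V z * (jy * ∑ j ∈ Ico jz jy, (φ j - φ (j + 1)) * cum j) := by
    rw [← s6, ← mul_assoc, mul_comm (jy : ℝ), ← mul_assoc]
    exact mul_le_mul_of_nonneg_right (by linarith) jy0.le
  have s9 := mul_le_mul_of_nonneg_left hfin (by positivity : 0 ≤ Y * V z)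
  refine le_of_mul_le_mul_right ?_ c0
  nlinarith [mul_le_mul_of_nonneg_right s5 c0.le]

/-- the data of one sieving level for `X` -/
structure Lv (X z i jz jy li W a0 : ℕ) (U cm : ℕ → ℕ) (lam : ℝ) : Prop where
  hl : 0 < lam
  hz : 5 ≤ z
  hi1 : i * lam ≤ log X
  hi2 : log X < (i + 1) * lam
  hjz : jz * lam ≤ log z
  hjz' : log z < (jz + 1) * lam
  hL : LX z X (li / SC)
  a1 : a0 ≤ jz
  a2 : a0 ≤ i - jy
  hU : ∀ a : ℕ, a0 ≤ a → a < i → ∀ X : ℝ, 0 < X → a * lam ≤ log X → UX z X (U a / SC)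
  hA : ∀ a : ℕ, a0 ≤ a → ∀ x : ℝ, 0 < x → a * lam ≤ log x → W ≤ V z * pw a * x
  hc : ∀ j, jz ≤ j → j < jy → ∀ s : Finset ℕ,
    (∀ p ∈ s, p.Prime ∧ z ≤ p ∧ log p < (j + 1) * lam) → ∑ p ∈ s, 2 / (p : ℝ) ≤ cm j / SC

def exE (W E i j : ℕ) : ℕ := Nat.succ (Nat.div (Nat.mul (Nat.add
  (Nat.succ (Nat.div (Nat.mul 5 (pw j)) 4)) (Nat.mul (Nat.sub (Nat.div E j) 1)
    (Nat.succ (Nat.div (Nat.mul 25 (pw (Nat.sub (Nat.sub i j) 1))) 8)))) SC) W)

def phE (U : ℕ → ℕ) (W E i jy j : ℕ) : ℕ := Nat.succ (Nat.div (Nat.mul (Nat.sub jy j)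
  (Nat.add (Nat.add SC (U (Nat.sub (Nat.sub i j) 1))) (exE W E i j))) jy)

noncomputable def chk2 (U : ℕ → ℕ) (li W : ℕ) (cm : ℕ → ℕ) (jz i jy : ℕ) : Bool :=
  frc (12 * (i + 1) / 5 + 1) fun E =>
  Nat.ble 1 jz && Nat.blt jz jy && Nat.ble jy i && Nat.ble 1 W && Nat.blt E (6 * jy) &&
    Nat.ble (60 * li) (59 * SC) && goW (phE U W E i jy) cm
    (fun acc => Nat.ble (60 * acc * jy) ((6 * jy - E) * (59 * SC - 60 * li) * SC)) jz (jy - jz) 0 0

/-- the counting statement at level `X` -/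
def Cnt (X : ℕ) : Prop := ∃ z : ℕ, 5 ≤ z ∧ z ≤ X ∧ ∀ (Y x : ℝ) (α β : ℕ → ℤ) (n : ℤ → ℕ),
  X ≤ 25 / 8 * Y → Ok z α β →
  (∀ t ∈ SS z α β x Y, 0 < n t ∧ n t ^ 5 ≤ X ^ 12 ∧ ∀ p : ℕ, p.Prime → p < z → ¬ p ∣ n t) →
  (∀ p K : ℕ, p.Prime → z ≤ p → ∃ a b : ℤ, ∀ t ∈ SS z α β x Y,
    ((Icc 1 K).filter fun k => p ^ k ∣ n t).card ≤
      ((Icc 1 K).filter fun k => ((p ^ k : ℕ) : ℤ) ∣ a + 3 * t).card +
      ((Icc 1 K).filter fun k => ((p ^ k : ℕ) : ℤ) ∣ b + 3 * t).card) →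
  Y * V z * (1 / 60) ≤ ((SS z α β x Y).filter fun t => cardFactors (n t) ≤ 5).card

theorem chk2_spec {U cm : ℕ → ℕ} {li W jz i jy : ℕ} (h : chk2 U li W cm jz i jy = true)
    {X z a0 : ℕ} {lam : ℝ} (hX : 0 < X) (H : Lv X z i jz jy li W a0 U cm lam) : Cnt X := by
  obtain ⟨hl, hz, hi1, hi2, hjz, hjz', hL, a1, a2, hU, hA, hc⟩ := H
  replace h := frc_true h
  have hE : 12 * (i + 1) < 5 * (12 * (i + 1) / 5 + 1) := by omega
  generalize 12 * (i + 1) / 5 + 1 = E at *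
  simp only [Bool.and_eq_true, Nat.ble_eq, Nat.blt_eq] at h
  obtain ⟨⟨⟨⟨⟨⟨h1, h2⟩, h3⟩, h4⟩, b1⟩, b2⟩, h⟩ := h
  obtain ⟨φ, h5, h6, h7⟩ := goW_spec _ _ _ _ _ _ _ h
  rw [Nat.add_sub_cancel' h2.le] at h5 h6 h7
  rw [Nat.ble_eq, zero_add] at h7
  have S0 := SC_pos
  have W0 : (0 : ℝ) < W := by exact_mod_cast h4
  have X0 : (0 : ℝ) < X := by exact_mod_cast hX
  refine ⟨z, hz, ?_, fun Y x α β n hY ho hn hv => ?_⟩
  · have : (jz : ℝ) + 1 ≤ i := by exact_mod_cast h2.trans_le h3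
    have : log z < log X := by nlinarith
    rw [log_lt_log_iff (by exact_mod_cast (by omega : 0 < z)) X0] at this
    exact_mod_cast this.le
  refine weighted2 (E := E) hl X0 hz hi1 h1 hjz h3 hL
    (fun j => U (i - j - 1) / SC) (fun j => exE W E i j / SC) (fun j => φ j / SC) (fun j => cm j / SC)
    (fun j c1 c2 X => hU _ (by omega) (by omega) X) (fun j c1 c2 p c3 c4 c5 => ?_)
    (fun j c1 c2 => ?_) (fun j c1 c2 => ?_) (by simp [h5]) hc b1 ?_ hY ho n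
    (fun t ht => ⟨(hn t ht).1, ?_, (hn t ht).2.2⟩) hv
  · have p0 : (0 : ℝ) < p := by exact_mod_cast (by omega : 0 < p)
    have d1 := hA j (by omega) p p0 c4
    have d2 := hA (i - j - 1) (by omega) _ (by positivity) c5
    have d3 := cast_div_lt (5 * pw j) (by norm_num : 0 < 4)
    have d4 := cast_div_lt (25 * pw (i - j - 1)) (by norm_num : 0 < 8)
    have d5 := cast_div_lt ((5 * pw j / 4 + 1 + (E / j - 1) *
      (25 * pw (i - j - 1) / 8 + 1)) * SC) h4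
    have e : exE W E i j = (5 * pw j / 4 + 1 + (E / j - 1) *
      (25 * pw (i - j - 1) / 8 + 1)) * SC / W + 1 := rfl
    rw [← Nat.cast_succ, Nat.succ_eq_add_one, ← e, Nat.cast_mul, mul_div_right_comm,
      ← le_div_iff₀ S0] at d5
    refine le_trans ?_ (mul_le_mul_of_nonneg_left d5 (V_pos z).le)
    generalize E / j - 1 = k
    rw [← mul_div_assoc (V z), le_div_iff₀ W0]
    rw [← div_le_iff₀ p0] at d1
    rw [← mul_div_assoc, le_div_iff₀ p0, ← div_le_iff₀ (by positivity)] at d2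
    have d6 := mul_le_mul_of_nonneg_left d3 (V_pos z).le
    have d7 := mul_le_mul_of_nonneg_left d4 (V_pos z).le
    simp only [Nat.cast_add, Nat.cast_mul, Nat.cast_one, Nat.cast_ofNat] at d6 d7 ⊢
    have d8 : 25 / 8 * (W * p / X : ℝ) ≤ V z * ((25 * pw (i - j - 1) / 8 : ℕ) + 1) := by
      linarith
    have d9 := mul_le_mul_of_nonneg_left d8 (Nat.cast_nonneg (α := ℝ) k)
    have e2 : (5 / 4 / p + k * (25 / 8 * (p / X)) : ℝ) * W =
        5 / 4 * (W / p) + k * (25 / 8 * (W * p / X)) := by ring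
    rw [e2]
    linarith
  · have d1 := cast_div_lt ((jy - j) * (SC + U (i - j - 1) + exE W E i j)) (by omega : 0 < jy)
    have d2 : ((((jy - j) * (SC + U (i - j - 1) + exE W E i j)) / jy + 1 : ℕ) : ℝ) ≤ φ j :=
      Nat.cast_le.2 (h6 j c1 c2).2
    rw [Nat.cast_succ] at d2
    replace d1 := d1.trans d2
    rw [div_le_iff₀ (by exact_mod_cast (by omega : 0 < jy)), Nat.cast_mul, Nat.cast_sub c2.le] at d1
    push_cast at d1
    rw [← mul_div_assoc, le_div_iff₀ S0]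
    refine le_trans (le_of_eq ?_) (d1.trans (le_of_eq (mul_comm _ _)))
    field_simp
  · exact div_le_div_of_nonneg_right (Nat.cast_le.2 (h6 j c1 c2).1) S0.le
  · have d1 := (Nat.cast_le (α := ℝ)).2 h7
    have d2 : ∑ j ∈ Ico jz jy, (((φ j - φ (j + 1)) * cm j : ℕ) : ℝ) =
        ∑ j ∈ Ico jz jy, ((φ j : ℝ) / SC - φ (j + 1) / SC) * (cm j / SC) * SC ^ 2 :=
      sum_congr rfl fun j hj => by
        rw [Nat.cast_mul, Nat.cast_sub (h6 j (mem_Ico.1 hj).1 (mem_Ico.1 hj).2).1]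
        field_simp
    rw [Nat.cast_mul, Nat.cast_mul, Nat.cast_mul, Nat.cast_mul, Nat.cast_sub b1.le, Nat.cast_sub b2,
      Nat.cast_sum, d2, ← sum_mul] at d1
    push_cast at d1
    refine le_of_mul_le_mul_right ?_ (show (0 : ℝ) < 60 * SC ^ 2 by positivity)
    refine le_of_eq_of_le (by ring) (d1.trans_eq ?_)
    field_simp
    ring
  · obtain ⟨c1, c2, -⟩ := hn t ht
    have d1 : log (n t ^ 5) ≤ log (X ^ 12) := log_le_log (by positivity) (by exact_mod_cast c2)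
    have d2 : 12 * ((i : ℝ) + 1) < 5 * E := by exact_mod_cast hE
    rw [log_pow, log_pow] at d1
    push_cast at d1
    nlinarith

end Pool.Agent.P.MP_8be758_nt
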